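import Pool.Agent.helper37.MW.Spec

/-! Row MPS of project MW (MP_7e34bc_co), second prover. -/

set_option autoImplicit false

namespace Pool.Agent.helper37.MW

open Finset Pool.Agent.NK

theorem MPS_le (p i : ℕ) (ρ : ℝ) (h1 : 1 / 3 ≤ ρ) (h2 : ρ ≤ 0.34) :
    mu p i ρ ≤ (p.choose i : ℝ) * ((17 / 50) ^ i * (2 / 3) ^ (p - i)) := by
  unfold mu
  have h0 : (0 : ℝ) ≤ ρ := by linarith
  have h2' : ρ ≤ 17 / 50 := by norm_num at h2 ⊢; linarith
  have h3 : (0 : ℝ) ≤ 1 - ρ := by linarith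
  have h4 : 1 - ρ ≤ 2 / 3 := by linarith
  have h5 : ρ ^ i ≤ (17 / 50) ^ i := pow_le_pow_left₀ h0 h2' i
  have h6 : (1 - ρ) ^ (p - i) ≤ (2 / 3) ^ (p - i) := pow_le_pow_left₀ h3 h4 (p - i)
  have h7 : (0 : ℝ) ≤ (1 - ρ) ^ (p - i) := pow_nonneg h3 _
  exact mul_le_mul_of_nonneg_left (mul_le_mul h5 h6 h7 (by positivity)) (Nat.cast_nonneg _)

theorem MPS : MPS_stmt := by
  intro ρ h1 h2
  refine ⟨?_, ?_, ?_, ?_, ?_⟩
  · have h3 : (0 : ℝ) ≤ 4 / 3 - ρ := by norm_num at h2; linarith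
    have h4 : mu 3 1 ρ = 3 * (ρ * (1 - ρ) ^ 2) := by
      simp [mu]
    rw [h4]
    norm_num
    nlinarith [mul_nonneg (sq_nonneg (ρ - 1 / 3)) h3]
  · refine (MPS_le 3 2 ρ h1 h2).trans ?_
    norm_num [Nat.choose]
  · refine (MPS_le 4 1 ρ h1 h2).trans ?_
    norm_num [Nat.choose]
  · refine (MPS_le 4 2 ρ h1 h2).trans ?_
    norm_num [Nat.choose]
  · intro p i hi hip hp
    refine (MPS_le p i ρ h1 h2).trans ?_
    have hi' : i ≤ 7 := hip.trans hp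
    interval_cases p <;> interval_cases i <;> first | omega | norm_num [Nat.choose]

end Pool.Agent.helper37.MW
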